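import Pool.Agent.Lib.MP_dc8965_an.BT.E1

open Finset Polynomial MeasureTheory

namespace DC8965.BT

/-- summing a sequence of weak type `r'` -/
private theorem R3_layer {ρ p σ : ℝ} (hp : 0 < p) (hσ : 0 ≤ σ) (s : Finset ℕ) (c : ℕ → ℝ)
    (hc : ∀ n ∈ s, 0 ≤ c n)
    (h : ∀ A ⊆ s, ∀ l : ℝ, 0 < l → (∀ n ∈ A, l ≤ c n) → l * (A.card : ℝ) ^ (1 / ρ) ≤ σ) :
    ∑ n ∈ s, c n ^ p ≤ σ ^ p * ∑ j ∈ range s.card, ((j + 1 : ℕ) : ℝ) ^ (-(p / ρ)) := by
  classical
  induction hn : s.card generalizing s with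
  | zero =>
    rw [Finset.card_eq_zero] at hn
    simp [hn]
  | succ N ih =>
    have hne : s.Nonempty := Finset.card_pos.mp (by omega)
    obtain ⟨n0, hn0, hmin⟩ := s.exists_min_image c hne
    have h1 := ih (s.erase n0) (fun n hn => hc n (Finset.mem_of_mem_erase hn))
      (fun A hA l hl hAl => h A (hA.trans (Finset.erase_subset _ _)) l hl hAl)
      (by rw [Finset.card_erase_of_mem hn0]; omega)
    rw [← Finset.add_sum_erase s _ hn0, Finset.sum_range_succ, mul_add, add_comm]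
    refine add_le_add h1 ?_
    have hN : (0 : ℝ) < ((N + 1 : ℕ) : ℝ) := by positivity
    rcases (hc n0 hn0).eq_or_lt with h0 | h0
    · rw [← h0, Real.zero_rpow hp.ne']
      positivity
    · have h2 := h s subset_rfl (c n0) h0 hmin
      rw [hn] at h2
      have h3 : c n0 ≤ σ * ((N + 1 : ℕ) : ℝ) ^ (-(1 / ρ)) := by
        rw [Real.rpow_neg hN.le, ← div_eq_mul_inv, le_div_iff₀ (Real.rpow_pos_of_pos hN _)]
        exact h2
      calc c n0 ^ p ≤ (σ * ((N + 1 : ℕ) : ℝ) ^ (-(1 / ρ))) ^ p := Real.rpow_le_rpow h0.le h3 hp.le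
        _ = σ ^ p * ((N + 1 : ℕ) : ℝ) ^ (-(p / ρ)) := by
            rw [Real.mul_rpow hσ (by positivity), ← Real.rpow_mul hN.le]
            congr 2
            ring

/-- the constant in (R3) -/
noncomputable def RK (x : ℝ) : ℝ := ∑' j : ℕ, ((j + 1 : ℕ) : ℝ) ^ (-x)

private theorem RK_sum {x : ℝ} (hx : 1 < x) : Summable fun j : ℕ => ((j + 1 : ℕ) : ℝ) ^ (-x) := by
  have h := (Real.summable_nat_rpow (p := -x)).mpr (by linarith)
  exact (summable_nat_add_iff (f := fun n : ℕ => (n : ℝ) ^ (-x)) 1).mpr h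

theorem RK_nonneg (x : ℝ) : 0 ≤ RK x := tsum_nonneg fun _ => by positivity

/-- one block: `∑_{n ∈ A} |F^(n)| ≤ |A|^{1/r'} ‖F‖_r`-type bound (in the form used) -/
private theorem R3_block {r ρ : ℝ} (hr : r.HolderConjugate ρ) (hρ2 : 2 ≤ ρ) {F : ℝ → ℂ}
    (hF : Continuous F) (A : Finset ℕ) :
    ∑ n ∈ A, ‖fc F (n : ℤ)‖ ≤
      ((1 / (2 * Real.pi)) * ∫ t in (0 : ℝ)..(2 * Real.pi), ‖F t‖ ^ r) ^ (1 / r) *
        (A.card : ℝ) ^ (1 - 1 / ρ) := by
  classical
  have hpi := Real.pi_pos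
  have hpi2 : (0 : ℝ) < 2 * Real.pi := by positivity
  have hr0 : 0 < r := hr.pos
  have hρ0 : 0 < ρ := hr.symm.pos
  -- unimodular coefficients
  have hu : ∀ n : ℕ, ∃ u : ℂ, ‖u‖ = 1 ∧ (starRingEnd ℂ) u * fc F (n : ℤ) = (‖fc F (n : ℤ)‖ : ℂ) := by
    intro n
    by_cases h : fc F (n : ℤ) = 0
    · exact ⟨1, norm_one, by simp [h]⟩
    · have hn : (‖fc F (n : ℤ)‖ : ℂ) ≠ 0 := by
        exact_mod_cast (norm_pos_iff.mpr h).ne'
      refine ⟨fc F (n : ℤ) / ‖fc F (n : ℤ)‖, ?_, ?_⟩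
      · rw [norm_div, Complex.norm_real, norm_norm, div_self (norm_pos_iff.mpr h).ne']
      · rw [map_div₀, Complex.conj_ofReal, div_mul_eq_mul_div, div_eq_iff hn,
          ← Complex.normSq_eq_conj_mul_self, Complex.normSq_eq_norm_sq]
        push_cast
        ring
  choose u hu1 hu2 using hu
  set b : ℂ[X] := ∑ n ∈ A, monomial n (u n) with hb
  have hbe : ∀ z : ℂ, b.eval z = ∑ n ∈ A, u n * z ^ n := by
    intro z
    rw [hb, Polynomial.eval_finsetSum]
    exact Finset.sum_congr rfl fun n _ => Polynomial.eval_monomial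
  set P : ℝ → ℂ := fun t => (starRingEnd ℂ) (b.eval (Complex.exp ((t : ℂ) * Complex.I))) with hP
  have hbc : Continuous fun t : ℝ => b.eval (Complex.exp ((t : ℂ) * Complex.I)) := by fun_prop
  have hPc : Continuous P := Complex.continuous_conj.comp hbc
  have hPe : ∀ t : ℝ, P t = ∑ n ∈ A, (starRingEnd ℂ) (u n) * Complex.exp (-(((n : ℤ) : ℂ) * t * Complex.I)) := by
    intro t
    simp only [hP, hbe, map_sum, map_mul, map_pow]
    refine Finset.sum_congr rfl fun n _ => ?_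
    congr 1
    rw [← Complex.exp_conj, ← Complex.exp_nat_mul]
    congr 1
    simp only [map_mul, Complex.conj_ofReal, Complex.conj_I]
    push_cast
    ring
  have hPn : ∀ t, ‖P t‖ = ‖b.eval (Complex.exp ((t : ℂ) * Complex.I))‖ := fun t => by
    simp only [hP]
    exact RCLike.norm_conj _
  have hPA : ∀ t, ‖P t‖ ≤ A.card := by
    intro t
    rw [hPe]
    refine (norm_sum_le _ _).trans ?_
    rw [← nsmul_one A.card, ← Finset.sum_const]
    refine Finset.sum_le_sum fun n _ => ?_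
    rw [norm_mul, RCLike.norm_conj, hu1, one_mul, Complex.norm_exp]
    simp
  -- the L² norm
  have hP2 : (1 / (2 * Real.pi)) * ∫ t in (0 : ℝ)..(2 * Real.pi), ‖P t‖ ^ 2 = A.card := by
    have h1 := E1d b
    simp only [hPn]
    rw [h1]
    have h2 : ∀ k, b.coeff k = if k ∈ A then u k else 0 := by
      intro k
      rw [hb, Polynomial.finsetSum_coeff]
      simp only [Polynomial.coeff_monomial]
      rw [Finset.sum_ite_eq' A k]
    have h3 : b.support ⊆ A := by
      intro k hk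
      rw [Polynomial.mem_support_iff, h2] at hk
      by_contra h
      exact hk (if_neg h)
    rw [Sn_eq_sum (by norm_num) b A h3]
    calc ∑ k ∈ A, ‖b.coeff k‖ ^ (2 : ℝ) = ∑ k ∈ A, (1 : ℝ) := by
          refine Finset.sum_congr rfl fun k hk => ?_
          rw [h2, if_pos hk, hu1, Real.one_rpow]
      _ = A.card := by simp
  -- the sum as an integral
  have hsum : (∑ n ∈ A, (‖fc F (n : ℤ)‖ : ℂ)) =
      (1 / (2 * Real.pi) : ℝ) * ∫ t in (0 : ℝ)..(2 * Real.pi), F t * P t := by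
    have h1 : ∀ n ∈ A, (‖fc F (n : ℤ)‖ : ℂ) = (1 / (2 * Real.pi) : ℝ) *
        ∫ t in (0 : ℝ)..(2 * Real.pi), F t * ((starRingEnd ℂ) (u n) *
          Complex.exp (-(((n : ℤ) : ℂ) * t * Complex.I))) := by
      intro n _
      rw [← hu2 n, fc, mul_left_comm, ← intervalIntegral.integral_const_mul]
      congr 1
      refine intervalIntegral.integral_congr fun t _ => ?_
      ring
    rw [Finset.sum_congr rfl h1, ← Finset.mul_sum, ← intervalIntegral.integral_finsetSum]
    · congr 1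
      refine intervalIntegral.integral_congr fun t _ => ?_
      rw [hPe, Finset.mul_sum]
    · intro n _
      apply Continuous.intervalIntegrable
      fun_prop
  have hFP : ∑ n ∈ A, ‖fc F (n : ℤ)‖ ≤
      (1 / (2 * Real.pi)) * ∫ t in (0 : ℝ)..(2 * Real.pi), ‖F t‖ * ‖P t‖ := by
    have h1 : ((∑ n ∈ A, ‖fc F (n : ℤ)‖ : ℝ) : ℂ) =
        (1 / (2 * Real.pi) : ℝ) * ∫ t in (0 : ℝ)..(2 * Real.pi), F t * P t := by
      rw [← hsum]
      push_cast
      rfl
    have h2 : ∑ n ∈ A, ‖fc F (n : ℤ)‖ = ‖((∑ n ∈ A, ‖fc F (n : ℤ)‖ : ℝ) : ℂ)‖ := by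
      rw [Complex.norm_real, Real.norm_eq_abs,
        abs_of_nonneg (Finset.sum_nonneg fun _ _ => norm_nonneg _)]
    rw [h2, h1, norm_mul, Complex.norm_real, Real.norm_eq_abs, abs_of_pos (by positivity)]
    refine mul_le_mul_of_nonneg_left ?_ (by positivity)
    refine (intervalIntegral.norm_integral_le_integral_norm hpi2.le).trans (le_of_eq ?_)
    refine intervalIntegral.integral_congr fun t _ => ?_
    exact norm_mul _ _
  -- Hoelder
  have hmem : ∀ (G : ℝ → ℂ), Continuous G → ∀ e : ENNReal,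
      MemLp G e (volume.restrict (Set.Ioc 0 (2 * Real.pi))) := by
    intro G hG e
    obtain ⟨M, hM⟩ := (isCompact_Icc (a := (0 : ℝ)) (b := 2 * Real.pi)).exists_bound_of_continuousOn
      hG.continuousOn
    refine MemLp.of_bound hG.aestronglyMeasurable M ?_
    rw [ae_restrict_iff' measurableSet_Ioc]
    exact Filter.Eventually.of_forall fun t ht => hM t (Set.Ioc_subset_Icc_self ht)
  have hH := integral_mul_norm_le_Lp_mul_Lq hr (hmem F hF _) (hmem P hPc _)
  rw [← intervalIntegral.integral_of_le hpi2.le, ← intervalIntegral.integral_of_le hpi2.le,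
    ← intervalIntegral.integral_of_le hpi2.le] at hH
  have hPr : (1 / (2 * Real.pi)) * ∫ t in (0 : ℝ)..(2 * Real.pi), ‖P t‖ ^ ρ ≤
      (A.card : ℝ) ^ (ρ - 1) := by
    rcases A.eq_empty_or_nonempty with hA | hA
    · have h1 : ∀ t, ‖P t‖ ^ ρ = 0 := by
        intro t
        rw [hPe, hA, Finset.sum_empty, norm_zero, Real.zero_rpow hρ0.ne']
      simp only [h1, intervalIntegral.integral_zero, mul_zero]
      positivity
    · have hA0 : (0 : ℝ) < A.card := by exact_mod_cast hA.card_pos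
      calc (1 / (2 * Real.pi)) * ∫ t in (0 : ℝ)..(2 * Real.pi), ‖P t‖ ^ ρ
          ≤ (1 / (2 * Real.pi)) * ∫ t in (0 : ℝ)..(2 * Real.pi), (A.card : ℝ) ^ (ρ - 2) * ‖P t‖ ^ 2 := by
            refine mul_le_mul_of_nonneg_left ?_ (by positivity)
            refine intervalIntegral.integral_mono hpi2.le ?_ ?_ fun t => ?_
            · exact (hPc.norm.rpow_const fun _ => Or.inr hρ0.le).intervalIntegrable _ _
            · exact (continuous_const.mul (hPc.norm.pow 2)).intervalIntegrable _ _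
            · beta_reduce
              rcases (norm_nonneg (P t)).eq_or_lt with h0 | h0
              · rw [← h0, Real.zero_rpow hρ0.ne']
                positivity
              · have h1 : ‖P t‖ ^ ρ = ‖P t‖ ^ (ρ - 2) * ‖P t‖ ^ 2 := by
                  rw [← Real.rpow_natCast, ← Real.rpow_add h0]
                  congr 1
                  push_cast
                  ring
                rw [h1]
                refine mul_le_mul_of_nonneg_right ?_ (by positivity)
                exact Real.rpow_le_rpow h0.le (hPA t) (by linarith)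
        _ = (A.card : ℝ) ^ (ρ - 2) * ((1 / (2 * Real.pi)) *
              ∫ t in (0 : ℝ)..(2 * Real.pi), ‖P t‖ ^ 2) := by
            rw [intervalIntegral.integral_const_mul]
            ring
        _ = (A.card : ℝ) ^ (ρ - 1) := by
            rw [hP2]
            nth_rewrite 2 [← Real.rpow_one (A.card : ℝ)]
            rw [← Real.rpow_add hA0]
            congr 1
            ring
  have hI1 : 0 ≤ ∫ t in (0 : ℝ)..(2 * Real.pi), ‖F t‖ ^ r :=
    intervalIntegral.integral_nonneg hpi2.le fun t _ => by positivity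
  have hI2 : 0 ≤ ∫ t in (0 : ℝ)..(2 * Real.pi), ‖P t‖ ^ ρ :=
    intervalIntegral.integral_nonneg hpi2.le fun t _ => by positivity
  have hsplit : 1 / (2 * Real.pi) = (1 / (2 * Real.pi)) ^ (1 / r) * (1 / (2 * Real.pi)) ^ (1 / ρ) := by
    rw [← Real.rpow_add (by positivity)]
    have : 1 / r + 1 / ρ = 1 := by
      rw [one_div, one_div]
      exact hr.inv_add_inv_eq_one
    rw [this, Real.rpow_one]
  calc ∑ n ∈ A, ‖fc F (n : ℤ)‖
      ≤ (1 / (2 * Real.pi)) * ∫ t in (0 : ℝ)..(2 * Real.pi), ‖F t‖ * ‖P t‖ := hFP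
    _ ≤ (1 / (2 * Real.pi)) * ((∫ t in (0 : ℝ)..(2 * Real.pi), ‖F t‖ ^ r) ^ (1 / r) *
          (∫ t in (0 : ℝ)..(2 * Real.pi), ‖P t‖ ^ ρ) ^ (1 / ρ)) :=
        mul_le_mul_of_nonneg_left hH (by positivity)
    _ = ((1 / (2 * Real.pi)) * ∫ t in (0 : ℝ)..(2 * Real.pi), ‖F t‖ ^ r) ^ (1 / r) *
          ((1 / (2 * Real.pi)) * ∫ t in (0 : ℝ)..(2 * Real.pi), ‖P t‖ ^ ρ) ^ (1 / ρ) := by
        rw [Real.mul_rpow (by positivity) hI1, Real.mul_rpow (by positivity) hI2]
        nth_rewrite 1 [hsplit]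
        ring
    _ ≤ ((1 / (2 * Real.pi)) * ∫ t in (0 : ℝ)..(2 * Real.pi), ‖F t‖ ^ r) ^ (1 / r) *
          (A.card : ℝ) ^ (1 - 1 / ρ) := by
        refine mul_le_mul_of_nonneg_left ?_ (by positivity)
        calc ((1 / (2 * Real.pi)) * ∫ t in (0 : ℝ)..(2 * Real.pi), ‖P t‖ ^ ρ) ^ (1 / ρ)
            ≤ ((A.card : ℝ) ^ (ρ - 1)) ^ (1 / ρ) :=
              Real.rpow_le_rpow (mul_nonneg (by positivity) hI2) hPr (one_div_nonneg.mpr hρ0.le)
          _ = (A.card : ℝ) ^ (1 - 1 / ρ) := by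
              rw [← Real.rpow_mul (Nat.cast_nonneg _)]
              congr 1
              field_simp

/-- (R3) Hausdorff–Young with a loss: the Fourier coefficients of a function in `L^r`, `r > q`, are
in `ℓ^p`. -/
theorem R3 {p r ρ : ℝ} (hr : r.HolderConjugate ρ) (hρ2 : 2 ≤ ρ) (hρp : ρ < p) {F : ℝ → ℂ}
    (hF : Continuous F) {S : ℝ}
    (hS : (1 / (2 * Real.pi)) * ∫ t in (0 : ℝ)..(2 * Real.pi), ‖F t‖ ^ r ≤ S) :
    Sle p (fun n : ℕ => fc F (n : ℤ)) (S ^ (p / r) * RK (p / ρ)) := by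
  have hpi := Real.pi_pos
  have hr0 : 0 < r := hr.pos
  have hρ0 : 0 < ρ := hr.symm.pos
  have hp0 : 0 < p := hρ0.trans hρp
  have hI : 0 ≤ (1 / (2 * Real.pi)) * ∫ t in (0 : ℝ)..(2 * Real.pi), ‖F t‖ ^ r :=
    mul_nonneg (by positivity)
      (intervalIntegral.integral_nonneg (by positivity) fun t _ => by positivity)
  have hS0 : 0 ≤ S := hI.trans hS
  intro n
  have h1 := R3_layer (ρ := ρ) (p := p) (σ := S ^ (1 / r)) hp0 (by positivity) (range n)
    (fun n => ‖fc F (n : ℤ)‖) (fun _ _ => norm_nonneg _) ?_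
  · refine h1.trans ?_
    rw [← Real.rpow_mul hS0, show 1 / r * p = p / r by ring]
    refine mul_le_mul_of_nonneg_left ?_ (by positivity)
    exact (RK_sum (by rw [lt_div_iff₀ hρ0]; linarith)).sum_le_tsum _ fun _ _ => by positivity
  · intro A _ l hl hAl
    rcases A.eq_empty_or_nonempty with hA | hA
    · rw [hA, Finset.card_empty, Nat.cast_zero, Real.zero_rpow (by positivity), mul_zero]
      positivity
    have hA0 : (0 : ℝ) < A.card := by exact_mod_cast hA.card_pos
    have h2 := R3_block hr hρ2 hF A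
    have h3 : l * A.card ≤ ∑ n ∈ A, ‖fc F (n : ℤ)‖ := by
      have := Finset.card_nsmul_le_sum A _ l hAl
      rw [nsmul_eq_mul] at this
      linarith
    have h4 : l * A.card ≤ S ^ (1 / r) * (A.card : ℝ) ^ (1 - 1 / ρ) := by
      refine h3.trans (h2.trans ?_)
      refine mul_le_mul_of_nonneg_right ?_ (by positivity)
      exact Real.rpow_le_rpow hI hS (by positivity)
    have h5 : (A.card : ℝ) = (A.card : ℝ) ^ (1 / ρ) * (A.card : ℝ) ^ (1 - 1 / ρ) := by
      rw [← Real.rpow_add hA0]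
      rw [show 1 / ρ + (1 - 1 / ρ) = 1 by ring, Real.rpow_one]
    refine le_of_mul_le_mul_right ?_ (Real.rpow_pos_of_pos hA0 (1 - 1 / ρ))
    calc l * (A.card : ℝ) ^ (1 / ρ) * (A.card : ℝ) ^ (1 - 1 / ρ) = l * A.card := by
          rw [mul_assoc, ← h5]
      _ ≤ _ := h4

end DC8965.BT
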