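import Pool.Agent.Lib.MP_dc8965_an.BT.E1

open Finset Polynomial MeasureTheory

namespace DC8965.BT

/-- (R4) solving `T_U y = b` by Fourier coefficients, when `U` has no zero on the circle -/
theorem R4 (U b : ℂ[X]) (hU : ∀ z : ℂ, ‖z‖ = 1 → U.eval z ≠ 0) :
    (Continuous fun t : ℝ => b.eval (Complex.exp ((t : ℂ) * Complex.I)) /
        U.eval (Complex.exp (-((t : ℂ) * Complex.I)))) ∧
      (Tp U (fun n : ℕ => fc (fun t : ℝ => b.eval (Complex.exp ((t : ℂ) * Complex.I)) /
        U.eval (Complex.exp (-((t : ℂ) * Complex.I)))) (n : ℤ)) = fun j => b.coeff j) ∧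
      Summable fun n : ℕ => ‖fc (fun t : ℝ => b.eval (Complex.exp ((t : ℂ) * Complex.I)) /
        U.eval (Complex.exp (-((t : ℂ) * Complex.I)))) (n : ℤ)‖ := by
  have hpi := Real.pi_pos
  obtain ⟨e, he⟩ : ∃ e : ℝ → ℂ, e = fun t : ℝ => Complex.exp ((t : ℂ) * Complex.I) := ⟨_, rfl⟩
  obtain ⟨e', he'⟩ : ∃ e' : ℝ → ℂ, e' = fun t : ℝ => Complex.exp (-((t : ℂ) * Complex.I)) := ⟨_, rfl⟩
  have hec : Continuous e := by rw [he]; fun_prop
  have hec' : Continuous e' := by rw [he']; fun_prop
  have hen' : ∀ t, ‖e' t‖ = 1 := fun t => by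
    rw [he']
    simp only
    rw [Complex.norm_exp]
    simp
  have hlin : ∀ t : ℝ, HasDerivAt (fun t : ℝ => (t : ℂ) * Complex.I) Complex.I t := fun t => by
    have h1 := ((hasDerivAt_id t).ofReal_comp).mul_const Complex.I
    simpa using h1
  have hed : ∀ t, HasDerivAt e (e t * Complex.I) t := fun t => by
    rw [he]
    exact (hlin t).cexp
  have hed' : ∀ t, HasDerivAt e' (e' t * -Complex.I) t := fun t => by
    rw [he']
    exact (hlin t).neg.cexp
  have hUne : ∀ t, U.eval (e' t) ≠ 0 := fun t => hU _ (hen' t)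
  have hbc : Continuous fun t => b.eval (e t) := b.continuous.comp hec
  have hbc' : Continuous fun t => b.derivative.eval (e t) := b.derivative.continuous.comp hec
  have hUc : Continuous fun t => U.eval (e' t) := U.continuous.comp hec'
  have hUc' : Continuous fun t => U.derivative.eval (e' t) := U.derivative.continuous.comp hec'
  obtain ⟨G, hG⟩ : ∃ G : ℝ → ℂ, G = fun t => b.eval (e t) / U.eval (e' t) := ⟨_, rfl⟩
  obtain ⟨G', hG'⟩ : ∃ G' : ℝ → ℂ, G' = fun t =>
      (b.derivative.eval (e t) * (e t * Complex.I) * U.eval (e' t) -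
        b.eval (e t) * (U.derivative.eval (e' t) * (e' t * -Complex.I))) / U.eval (e' t) ^ 2 :=
    ⟨_, rfl⟩
  have hGc : Continuous G := by
    rw [hG]
    exact hbc.div hUc hUne
  have hGc' : Continuous G' := by
    rw [hG']
    refine Continuous.div ?_ (hUc.pow 2) fun t => pow_ne_zero 2 (hUne t)
    exact ((hbc'.mul (hec.mul continuous_const)).mul hUc).sub
      (hbc.mul (hUc'.mul (hec'.mul continuous_const)))
  have hGd : ∀ t, HasDerivAt G (G' t) t := fun t => by
    rw [hG, hG']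
    have h1 : HasDerivAt (fun t => b.eval (e t)) (b.derivative.eval (e t) * (e t * Complex.I)) t :=
      (b.hasDerivAt (e t)).comp t (hed t)
    have h2 : HasDerivAt (fun t => U.eval (e' t))
        (U.derivative.eval (e' t) * (e' t * -Complex.I)) t :=
      (U.hasDerivAt (e' t)).comp t (hed' t)
    exact h1.div h2 (hUne t)
  have hper : G (2 * Real.pi) = G 0 := by
    have h1 : e (2 * Real.pi) = e 0 := by
      rw [he]
      simp only
      push_cast
      rw [Complex.exp_two_pi_mul_I, zero_mul, Complex.exp_zero]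
    have h2 : e' (2 * Real.pi) = e' 0 := by
      rw [he']
      simp only
      push_cast
      rw [Complex.exp_neg, Complex.exp_two_pi_mul_I, zero_mul, neg_zero, Complex.exp_zero, inv_one]
    rw [hG]
    simp only
    rw [h1, h2]
  have hGG : (fun t : ℝ => b.eval (Complex.exp ((t : ℂ) * Complex.I)) /
      U.eval (Complex.exp (-((t : ℂ) * Complex.I)))) = G := by
    rw [hG, he, he']
  rw [hGG]
  refine ⟨hGc, ?_, ?_⟩
  · -- the equation
    funext j
    have h0 := E1c b j
    rw [← h0]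
    have h1 : ∀ k ∈ U.support, U.coeff k * fc G ((j + k : ℕ) : ℤ) =
        (1 / (2 * Real.pi) : ℝ) * ∫ t in (0 : ℝ)..(2 * Real.pi),
          U.coeff k * e' t ^ k * G t * Complex.exp (-(((j : ℤ) : ℂ) * t * Complex.I)) := by
      intro k _
      have h2 : (∫ t in (0 : ℝ)..(2 * Real.pi),
          U.coeff k * e' t ^ k * G t * Complex.exp (-(((j : ℤ) : ℂ) * t * Complex.I))) =
          U.coeff k * ∫ t in (0 : ℝ)..(2 * Real.pi),
            G t * Complex.exp (-((((j + k : ℕ) : ℤ) : ℂ) * t * Complex.I)) := by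
        rw [← intervalIntegral.integral_const_mul]
        refine intervalIntegral.integral_congr fun t _ => ?_
        have h3 : e' t ^ k * Complex.exp (-(((j : ℤ) : ℂ) * t * Complex.I)) =
            Complex.exp (-((((j + k : ℕ) : ℤ) : ℂ) * t * Complex.I)) := by
          rw [he']
          rw [← Complex.exp_nat_mul, ← Complex.exp_add]
          congr 1
          push_cast
          ring
        rw [← h3]
        ring
      rw [h2, fc]
      ring
    show ∑ k ∈ U.support, U.coeff k * fc G ((j + k : ℕ) : ℤ) = _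
    rw [Finset.sum_congr rfl h1, ← Finset.mul_sum, ← intervalIntegral.integral_finsetSum]
    · rw [fc]
      congr 1
      refine intervalIntegral.integral_congr fun t _ => ?_
      have h4 : ∑ k ∈ U.support, U.coeff k * e' t ^ k = U.eval (e' t) := by
        rw [Polynomial.eval_eq_sum, Polynomial.sum_def]
      have h5 : b.eval (Complex.exp ((t : ℂ) * Complex.I)) = U.eval (e' t) * G t := by
        rw [hG, he]
        exact (mul_div_cancel₀ _ (hUne t)).symm
      rw [← Finset.sum_mul, ← Finset.sum_mul, h4, h5]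
    · intro k _
      refine Continuous.intervalIntegrable ?_ _ _
      exact ((continuous_const.mul (hec'.pow k)).mul hGc).mul (by fun_prop)
  · -- summability
    have hnat : ∀ {F : ℝ → ℂ}, Continuous F → ∀ n : ℕ, ∑ k ∈ range n, ‖fc F (k : ℤ)‖ ^ 2 ≤
        (1 / (2 * Real.pi)) * ∫ t in (0 : ℝ)..(2 * Real.pi), ‖F t‖ ^ 2 := by
      intro F hF n
      have h := E1a hF ((range n).map Nat.castEmbedding)
      rw [Finset.sum_map] at h
      exact h
    have s1 : Summable fun n : ℕ => ‖fc G (n : ℤ)‖ ^ 2 :=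
      summable_of_sum_range_le (fun _ => by positivity) (hnat hGc)
    have s2 : Summable fun n : ℕ => ‖fc G' (n : ℤ)‖ ^ 2 :=
      summable_of_sum_range_le (fun _ => by positivity) (hnat hGc')
    have s3 : Summable fun n : ℕ => 2 * (1 / ((n + 1 : ℕ) : ℝ) ^ 2) :=
      ((summable_nat_add_iff 1).mpr (Real.summable_one_div_nat_pow.mpr one_lt_two)).mul_left 2
    refine Summable.of_nonneg_of_le (fun _ => norm_nonneg _) (fun n => ?_) ((s1.add s2).add s3)
    have h0 : ‖fc G' (n : ℤ)‖ = n * ‖fc G (n : ℤ)‖ := by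
      rw [E1b hGd hGc' hper, norm_mul, norm_mul, Complex.norm_I, one_mul]
      simp
    rw [h0]
    have h3 : (0 : ℝ) < 1 + (n : ℝ) ^ 2 := by positivity
    have h4 : 1 / (1 + (n : ℝ) ^ 2) ≤ 2 * (1 / ((n + 1 : ℕ) : ℝ) ^ 2) := by
      push_cast
      rw [mul_one_div, div_le_div_iff₀ h3 (by positivity)]
      nlinarith [sq_nonneg ((n : ℝ) - 1)]
    set x := ‖fc G (n : ℤ)‖ with hx
    have h5 : x ≤ (1 + (n : ℝ) ^ 2) * x ^ 2 + 1 / (1 + (n : ℝ) ^ 2) := by
      have h6 : 0 ≤ ((1 + (n : ℝ) ^ 2) * x - 1) ^ 2 / (1 + (n : ℝ) ^ 2) := by positivity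
      have h7 : ((1 + (n : ℝ) ^ 2) * x - 1) ^ 2 / (1 + (n : ℝ) ^ 2) =
          (1 + (n : ℝ) ^ 2) * x ^ 2 - 2 * x + 1 / (1 + (n : ℝ) ^ 2) := by
        field_simp
        ring
      rw [h7] at h6
      have h8 : 0 ≤ x := norm_nonneg _
      linarith
    calc x ≤ (1 + (n : ℝ) ^ 2) * x ^ 2 + 1 / (1 + (n : ℝ) ^ 2) := h5
      _ = x ^ 2 + (n * x) ^ 2 + 1 / (1 + (n : ℝ) ^ 2) := by ring
      _ ≤ x ^ 2 + (n * x) ^ 2 + 2 * (1 / ((n + 1 : ℕ) : ℝ) ^ 2) := by linarith

end DC8965.BT
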