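import Pool.Agent.Lib.MP_dc8965_an.BT.E1

open Finset Polynomial MeasureTheory

namespace DC8965.BT

private theorem R5_pt {r τ x : ℝ} (hr0 : 0 < r) (hr2 : r < 2) (hτ : 0 < τ) (hx : 0 ≤ x) :
    x ^ r ≤ x ^ 2 * τ ^ (r - 2) + τ ^ r := by
  rcases le_total x τ with h | h
  · have h1 : x ^ r ≤ τ ^ r := Real.rpow_le_rpow hx h hr0.le
    have h2 : 0 ≤ x ^ 2 * τ ^ (r - 2) := by positivity
    linarith
  · have hx0 : 0 < x := hτ.trans_le h
    have h1 : x ^ r = x ^ 2 * x ^ (r - 2) := by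
      rw [← Real.rpow_natCast, ← Real.rpow_add hx0]
      congr 1
      push_cast
      ring
    have h2 : x ^ (r - 2) ≤ τ ^ (r - 2) :=
      Real.rpow_le_rpow_of_nonpos hτ h (by linarith)
    have h3 : 0 ≤ τ ^ r := by positivity
    rw [h1]
    have h4 := mul_le_mul_of_nonneg_left h2 (sq_nonneg x)
    linarith

/-- (R5) the `L^r` mean of a polynomial is controlled by its `ℓ²` norm -/
theorem R5 {r D : ℝ} (hr0 : 0 < r) (hr2 : r < 2) (hD : 0 < D) (b : ℂ[X]) (hb : Sn 2 b ≤ D) :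
    (1 / (2 * Real.pi)) * ∫ t in (0 : ℝ)..(2 * Real.pi),
      ‖b.eval (Complex.exp ((t : ℂ) * Complex.I))‖ ^ r ≤ 2 * D ^ (r / 2) := by
  have hpi : (0 : ℝ) < 2 * Real.pi := by positivity
  have hτ : 0 < √D := Real.sqrt_pos.mpr hD
  have hc : Continuous fun t : ℝ => b.eval (Complex.exp ((t : ℂ) * Complex.I)) := by fun_prop
  have hτr : √D ^ r = D ^ (r / 2) := by
    rw [Real.sqrt_eq_rpow, ← Real.rpow_mul hD.le]
    congr 1
    ring
  have hτ2 : D * √D ^ (r - 2) = D ^ (r / 2) := by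
    rw [Real.sqrt_eq_rpow, ← Real.rpow_mul hD.le]
    nth_rewrite 1 [← Real.rpow_one D]
    rw [← Real.rpow_add hD]
    congr 1
    ring
  have h1 : ∫ t in (0 : ℝ)..(2 * Real.pi), ‖b.eval (Complex.exp ((t : ℂ) * Complex.I))‖ ^ r ≤
      ∫ t in (0 : ℝ)..(2 * Real.pi), (‖b.eval (Complex.exp ((t : ℂ) * Complex.I))‖ ^ 2 *
        √D ^ (r - 2) + √D ^ r) := by
    refine intervalIntegral.integral_mono hpi.le ?_ ?_ fun t => R5_pt hr0 hr2 hτ (norm_nonneg _)
    · exact (hc.norm.rpow_const fun _ => Or.inr hr0.le).intervalIntegrable _ _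
    · exact (((hc.norm.pow 2).mul continuous_const).add continuous_const).intervalIntegrable _ _
  have hcc : Continuous fun t : ℝ =>
      ‖b.eval (Complex.exp ((t : ℂ) * Complex.I))‖ ^ 2 * √D ^ (r - 2) :=
    (hc.norm.pow 2).mul continuous_const
  have hcd : Continuous fun _ : ℝ => √D ^ r := continuous_const
  rw [intervalIntegral.integral_add (hcc.intervalIntegrable _ _)
    (hcd.intervalIntegrable _ _), intervalIntegral.integral_mul_const,
    intervalIntegral.integral_const, sub_zero, smul_eq_mul] at h1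
  have h2 := E1d b
  have h3 : (1 / (2 * Real.pi)) * ∫ t in (0 : ℝ)..(2 * Real.pi),
      ‖b.eval (Complex.exp ((t : ℂ) * Complex.I))‖ ^ r ≤
      (1 / (2 * Real.pi)) * ((∫ t in (0 : ℝ)..(2 * Real.pi),
        ‖b.eval (Complex.exp ((t : ℂ) * Complex.I))‖ ^ 2) * √D ^ (r - 2) +
        2 * Real.pi * √D ^ r) := mul_le_mul_of_nonneg_left h1 (by positivity)
  refine h3.trans ?_
  have h4 : (1 / (2 * Real.pi)) * ((∫ t in (0 : ℝ)..(2 * Real.pi),
        ‖b.eval (Complex.exp ((t : ℂ) * Complex.I))‖ ^ 2) * √D ^ (r - 2) +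
        2 * Real.pi * √D ^ r) = Sn 2 b * √D ^ (r - 2) + √D ^ r := by
    rw [← h2]
    generalize (∫ t in (0 : ℝ)..(2 * Real.pi),
        ‖b.eval (Complex.exp ((t : ℂ) * Complex.I))‖ ^ 2) = I
    field_simp
  rw [h4]
  have h5 : Sn 2 b * √D ^ (r - 2) ≤ D * √D ^ (r - 2) :=
    mul_le_mul_of_nonneg_right hb (by positivity)
  rw [hτ2] at h5
  rw [hτr]
  linarith

end DC8965.BT
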