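import Pool.Agent.Lib.MP_dc8965_an.RS.R2
import Pool.Agent.Lib.MP_dc8965_an.RS.R3
import Pool.Agent.Lib.MP_dc8965_an.RS.R4
import Pool.Agent.Lib.MP_dc8965_an.RS.R5

open Finset Polynomial

namespace DC8965.BT

/-- the choice of the small constant in (R6) -/
private theorem R6_choice {p r M Kc ε : ℝ} (hp : 0 < p) (hr : 0 < r) (hM : 0 ≤ M) (hK : 0 ≤ Kc)
    (hε : 0 < ε) : ∃ sd : ℝ, 0 < sd ∧ (M * (2 * sd) ^ r) ^ (p / r) * Kc ≤ ε := by
  set E : ℝ := (ε / (Kc + 1)) ^ (r / p) with hE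
  have hE0 : 0 < E := by positivity
  set sd : ℝ := (E / (M + 1)) ^ (1 / r) / 2 with hsd
  have hsd0 : 0 < sd := by positivity
  refine ⟨sd, hsd0, ?_⟩
  have h1 : (2 * sd) ^ r = E / (M + 1) := by
    rw [hsd, mul_div_cancel₀ _ (two_ne_zero), ← Real.rpow_mul (by positivity),
      one_div_mul_cancel hr.ne', Real.rpow_one]
  have h2 : M * (2 * sd) ^ r ≤ E := by
    rw [h1, mul_div_assoc', div_le_iff₀ (by linarith)]
    nlinarith
  have h3 : (M * (2 * sd) ^ r) ^ (p / r) ≤ ε / (Kc + 1) := by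
    calc (M * (2 * sd) ^ r) ^ (p / r) ≤ E ^ (p / r) :=
          Real.rpow_le_rpow (by positivity) h2 (by positivity)
      _ = ε / (Kc + 1) := by
          rw [hE, ← Real.rpow_mul (by positivity)]
          have : r / p * (p / r) = 1 := by field_simp
          rw [this, Real.rpow_one]
  calc (M * (2 * sd) ^ r) ^ (p / r) * Kc ≤ ε / (Kc + 1) * Kc := mul_le_mul_of_nonneg_right h3 hK
    _ ≤ ε := by
        rw [div_mul_eq_mul_div, div_le_iff₀ (by linarith)]
        nlinarith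

/-- (R6) for `p > 2` an approximate solution, small in `ℓ²`, becomes an exact one: add a small
constant and a small random multiple of a far monomial. -/
theorem R6 {p q : ℝ} (hpq : p.HolderConjugate q) (hp2 : 2 < p) (k : ℕ) {ε : ℝ} (hε : 0 < ε) :
    ∃ δ : ℝ, 0 < δ ∧ ∀ (V : ℂ[X]) (g : Fin k → ℂ[X]),
      (∀ i, Sle 2 (Tp V (fun n => (g i).coeff n)) δ) →
      ∃ (U : ℂ[X]) (x : Fin k → ℕ → ℂ), U ≠ 0 ∧ U.roots.Nodup ∧ U.eval 0 ≠ 0 ∧
        (∀ i, Tp U (x i) = 0) ∧ Sn q (U - V) ≤ ε ∧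
        ∀ i, (Summable fun n => ‖x i n‖) ∧ Sle p (fun n => x i n - (g i).coeff n) ε := by
  classical
  have hp0 : 0 < p := hpq.pos
  have hq0 : 0 < q := hpq.symm.pos
  have hq1 : 1 < q := hpq.symm.lt
  have hinv : p⁻¹ + q⁻¹ = 1 := hpq.inv_add_inv_eq_one
  have hq2 : q < 2 := by
    have h1 : p⁻¹ < 2⁻¹ := inv_strictAnti₀ (by norm_num) hp2
    have h2 : (2 : ℝ)⁻¹ < q⁻¹ := by linarith
    exact (inv_lt_inv₀ (by norm_num) hq0).mp h2
  obtain ⟨r, hqr, hr2⟩ : ∃ r, q < r ∧ r < 2 := ⟨(q + 2) / 2, by linarith, by linarith⟩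
  have hr1 : 1 < r := by linarith
  have hr0 : 0 < r := by linarith
  set ρ : ℝ := Real.conjExponent r with hρ
  have hrρ : r.HolderConjugate ρ := Real.HolderConjugate.conjExponent hr1
  have hρ0 : 0 < ρ := hrρ.symm.pos
  have hinv' : r⁻¹ + ρ⁻¹ = 1 := hrρ.inv_add_inv_eq_one
  have hρ2 : 2 ≤ ρ := by
    have h1 : (2 : ℝ)⁻¹ < r⁻¹ := inv_strictAnti₀ hr0 hr2
    have h2 : ρ⁻¹ < (2 : ℝ)⁻¹ := by linarith
    exact ((inv_lt_inv₀ hρ0 (by norm_num)).mp h2).le
  have hρp : ρ < p := by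
    have h1 : r⁻¹ < q⁻¹ := inv_strictAnti₀ hq0 hqr
    have h2 : p⁻¹ < ρ⁻¹ := by linarith
    exact (inv_lt_inv₀ hp0 hρ0).mp h2
  have hr' : (0 : ℝ) < 1 - r / 2 := by linarith
  have hpi : (0 : ℝ) < 2 * Real.pi := by positivity
  set s0 : ℝ := (ε / 2) ^ (1 / q) / 2 with hs0
  have hs00 : 0 < s0 := by positivity
  have hs0q : (2 * s0) ^ q = ε / 2 := by
    rw [hs0, mul_div_cancel₀ _ (two_ne_zero), ← Real.rpow_mul (by positivity),
      one_div_mul_cancel hq0.ne', Real.rpow_one]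
  set M : ℝ := (4 / (1 - r / 2)) ^ 2 * s0 ^ (-r) * (2 * k) with hM
  have hM0 : 0 ≤ M := by positivity
  obtain ⟨sd, hsd0, hsd⟩ := R6_choice hp0 hr0 hM0 (RK_nonneg (p / ρ)) hε
  refine ⟨sd ^ 2, by positivity, fun V g hg => ?_⟩
  obtain ⟨m, hm1, hmV, hmg⟩ : ∃ m : ℕ, 1 ≤ m ∧ V.natDegree < m ∧ ∀ i, (g i).natDegree < m := by
    refine ⟨1 + V.natDegree + ∑ i, (g i).natDegree, by omega, by omega, fun i => ?_⟩
    have := Finset.single_le_sum (f := fun i => (g i).natDegree) (fun _ _ => Nat.zero_le _)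
      (Finset.mem_univ i)
    omega
  set G : ℝ := 1 + ∑ i, Sn 2 (g i) with hG
  have hG0 : 0 < G := by
    have : 0 ≤ ∑ i, Sn 2 (g i) := Finset.sum_nonneg fun i _ => Sn_nonneg _ _
    linarith
  have hGi : ∀ i, Sn 2 (g i) ≤ G := by
    intro i
    have := Finset.single_le_sum (f := fun i => Sn 2 (g i)) (fun i _ => Sn_nonneg _ _)
      (Finset.mem_univ i)
    linarith
  set η₀ : ℝ := min ((ε / 2) ^ (1 / q)) (sd / √G) with hη₀
  have hsG : 0 < √G := Real.sqrt_pos.mpr hG0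
  have hη₀0 : 0 < η₀ := lt_min (by positivity) (by positivity)
  have hη₀q : η₀ ^ q ≤ ε / 2 := by
    calc η₀ ^ q ≤ ((ε / 2) ^ (1 / q)) ^ q :=
          Real.rpow_le_rpow hη₀0.le (min_le_left _ _) hq0.le
      _ = ε / 2 := by
        rw [← Real.rpow_mul (by positivity), one_div_mul_cancel hq0.ne', Real.rpow_one]
  have hη₀2 : ∀ i, η₀ ^ 2 * Sn 2 (g i) ≤ sd ^ 2 := by
    intro i
    calc η₀ ^ 2 * Sn 2 (g i) ≤ (sd / √G) ^ 2 * G :=
          mul_le_mul (pow_le_pow_left₀ hη₀0.le (min_le_right _ _) 2) (hGi i) (Sn_nonneg _ _)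
            (by positivity)
      _ = sd ^ 2 := by
        rw [div_pow, Real.sq_sqrt hG0.le]
        field_simp
  obtain ⟨η, hη, hη0⟩ : ∃ η : ℂ, ‖η‖ ≤ η₀ ∧ (V + C η).eval 0 ≠ 0 := by
    by_cases h : V.eval 0 = 0
    · refine ⟨(η₀ : ℂ), ?_, ?_⟩
      · rw [Complex.norm_real, Real.norm_eq_abs, abs_of_pos hη₀0]
      · rw [eval_add, eval_C, h, zero_add]
        exact_mod_cast hη₀0.ne'
    · refine ⟨0, by rw [norm_zero]; exact hη₀0.le, ?_⟩
      rw [C_0, add_zero]
      exact h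
  have hgc : ∀ i j, m ≤ j → (g i).coeff j = 0 := fun i j hj =>
    Polynomial.coeff_eq_zero_of_natDegree_lt ((hmg i).trans_le hj)
  -- the right hand sides
  set b : Fin k → ℂ[X] := fun i =>
    ∑ j ∈ range m, monomial j (Tp (V + C η) (fun n => (g i).coeff n) j) with hb
  have hbc : ∀ i j, (b i).coeff j = Tp (V + C η) (fun n => (g i).coeff n) j := by
    intro i j
    simp only [hb, Polynomial.finsetSum_coeff, Polynomial.coeff_monomial]
    rw [Finset.sum_ite_eq' (range m) j]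
    split_ifs with h
    · rfl
    · rw [Tp_eq_zero_of_ge _ (fun k hk => hgc i k hk) (by simpa using h)]
  have hbS : ∀ i, Sn 2 (b i) ≤ (2 * sd) ^ 2 := by
    intro i
    rw [← Sle_coeff_iff (by norm_num)]
    have h1 : (fun n => (b i).coeff n) =
        fun n => Tp V (fun n => (g i).coeff n) n + (C η * g i).coeff n := by
      funext n
      rw [hbc, Tp_add_left, Pi.add_apply, Tp_C, Pi.smul_apply, Polynomial.coeff_C_mul, smul_eq_mul]
    rw [h1]
    have h2 : Sle 2 (fun n => (C η * g i).coeff n) (sd ^ (2 : ℝ)) := by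
      rw [Sle_coeff_iff (by norm_num), Sn_C_mul (by norm_num), Real.rpow_two, Real.rpow_two]
      refine le_trans ?_ (hη₀2 i)
      exact mul_le_mul_of_nonneg_right (pow_le_pow_left₀ (norm_nonneg _) hη 2) (Sn_nonneg _ _)
    have h3 : Sle 2 (Tp V (fun n => (g i).coeff n)) (sd ^ (2 : ℝ)) := by
      rw [Real.rpow_two]
      exact hg i
    have h4 := Sle.add (r := 2) (by norm_num) hsd0.le hsd0.le h3 h2
    have h5 : (sd + sd) ^ (2 : ℝ) = (2 * sd) ^ 2 := by
      rw [Real.rpow_two]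
      ring
    rw [h5] at h4
    exact h4
  obtain ⟨s, hs, hroots, hcirc, hmean⟩ := R2 hr0 hr2 (V + C η) b hm1 hη0 hs00
  set U : ℂ[X] := V + C η + C s * X ^ m with hU
  have hU0 : U.eval 0 ≠ 0 := by
    rw [hU, eval_add, eval_mul, eval_pow, eval_X, zero_pow (by omega), mul_zero, add_zero]
    exact hη0
  have hUne : U ≠ 0 := by
    intro h
    rw [h, eval_zero] at hU0
    exact hU0 rfl
  -- solve
  have hsol : ∀ i, ∃ y : ℕ → ℂ, (Tp U y = fun j => (b i).coeff j) ∧
      (Summable fun n => ‖y n‖) ∧ Sle p y ε := by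
    intro i
    obtain ⟨hc, heq, hsum⟩ := R4 U (b i) hcirc
    refine ⟨_, heq, hsum, ?_⟩
    have hS : (1 / (2 * Real.pi)) * ∫ t in (0 : ℝ)..(2 * Real.pi),
        ‖(b i).eval (Complex.exp ((t : ℂ) * Complex.I)) /
          U.eval (Complex.exp (-((t : ℂ) * Complex.I)))‖ ^ r ≤ M * (2 * sd) ^ r := by
      have h1 : ∫ t in (0 : ℝ)..(2 * Real.pi), ‖(b i).eval (Complex.exp ((t : ℂ) * Complex.I)) /
          U.eval (Complex.exp (-((t : ℂ) * Complex.I)))‖ ^ r ≤
          ∑ i, ∫ t in (0 : ℝ)..(2 * Real.pi), ‖(b i).eval (Complex.exp ((t : ℂ) * Complex.I)) /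
            U.eval (Complex.exp (-((t : ℂ) * Complex.I)))‖ ^ r :=
        Finset.single_le_sum (f := fun i => ∫ t in (0 : ℝ)..(2 * Real.pi),
          ‖(b i).eval (Complex.exp ((t : ℂ) * Complex.I)) /
            U.eval (Complex.exp (-((t : ℂ) * Complex.I)))‖ ^ r)
          (fun i _ => intervalIntegral.integral_nonneg hpi.le fun t _ => by positivity)
          (Finset.mem_univ i)
      have h2 : ∀ i, (1 / (2 * Real.pi)) * ∫ t in (0 : ℝ)..(2 * Real.pi),
          ‖(b i).eval (Complex.exp ((t : ℂ) * Complex.I))‖ ^ r ≤ 2 * (2 * sd) ^ r := by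
        intro i
        have h3 := R5 hr0 hr2 (D := (2 * sd) ^ 2) (by positivity) (b i) (hbS i)
        have h4 : ((2 * sd) ^ 2) ^ (r / 2) = (2 * sd) ^ r := by
          rw [← Real.rpow_natCast, ← Real.rpow_mul (by positivity)]
          congr 1
          push_cast
          ring
        rwa [h4] at h3
      calc (1 / (2 * Real.pi)) * ∫ t in (0 : ℝ)..(2 * Real.pi),
            ‖(b i).eval (Complex.exp ((t : ℂ) * Complex.I)) /
              U.eval (Complex.exp (-((t : ℂ) * Complex.I)))‖ ^ r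
          ≤ (1 / (2 * Real.pi)) * ((4 / (1 - r / 2)) ^ 2 * s0 ^ (-r) *
              ∑ i, ∫ t in (0 : ℝ)..(2 * Real.pi),
                ‖(b i).eval (Complex.exp ((t : ℂ) * Complex.I))‖ ^ r) :=
            mul_le_mul_of_nonneg_left (h1.trans hmean) (by positivity)
        _ = (4 / (1 - r / 2)) ^ 2 * s0 ^ (-r) * ∑ i, ((1 / (2 * Real.pi)) *
              ∫ t in (0 : ℝ)..(2 * Real.pi),
                ‖(b i).eval (Complex.exp ((t : ℂ) * Complex.I))‖ ^ r) := by
            rw [← Finset.mul_sum]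
            ring
        _ ≤ (4 / (1 - r / 2)) ^ 2 * s0 ^ (-r) * ∑ _i : Fin k, 2 * (2 * sd) ^ r := by
            refine mul_le_mul_of_nonneg_left ?_ (by positivity)
            exact Finset.sum_le_sum fun i _ => h2 i
        _ = M * (2 * sd) ^ r := by
            rw [Finset.sum_const, Finset.card_univ, Fintype.card_fin, nsmul_eq_mul, hM]
            ring
    exact (R3 hrρ hρ2 hρp hc hS).mono hsd
  choose y hy1 hy2 hy3 using hsol
  have hXQ : ∀ j < m, (C s * X ^ m : ℂ[X]).coeff j = 0 := by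
    intro j hj
    rw [Polynomial.coeff_C_mul, Polynomial.coeff_X_pow, if_neg (by omega), mul_zero]
  refine ⟨U, fun i n => (g i).coeff n - y i n, hUne, hroots, hU0, fun i => ?_, ?_,
    fun i => ⟨?_, ?_⟩⟩
  · have h1 : Tp U (fun n => (g i).coeff n - y i n) =
        Tp U (fun n => (g i).coeff n) - Tp U (y i) :=
      Tp_sub_right _ (fun n => (g i).coeff n) (y i)
    refine h1.trans ?_
    rw [hy1 i, hU, Tp_add_left, Tp_eq_zero_of_disjoint hXQ (fun k hk => hgc i k hk), add_zero]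
    funext j
    rw [Pi.sub_apply, hbc, sub_self, Pi.zero_apply]
  · have h1 : U - V = C η + C s * X ^ m := by rw [hU]; ring
    rw [h1]
    have h2 : ∀ j, m ≤ j → (C η : ℂ[X]).coeff j = 0 := by
      intro j hj
      rw [Polynomial.coeff_C, if_neg (by omega)]
    refine (Sn_add_le_of_disjoint hq0 h2 hXQ).trans ?_
    have h3 : Sn q (C η) ≤ ε / 2 := by
      rw [Sn_eq_range hq0 (n := 1) (fun j hj => by rw [Polynomial.coeff_C, if_neg (by omega)]),
        Finset.sum_range_one, Polynomial.coeff_C_zero]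
      exact (Real.rpow_le_rpow (norm_nonneg _) hη hq0.le).trans hη₀q
    have h4 : Sn q (C s * X ^ m) ≤ ε / 2 := by
      have h5 : (C s * X ^ m : ℂ[X]) = X ^ m * C s := by ring
      rw [h5, Sn_X_pow_mul, Sn_eq_range hq0 (n := 1)
        (fun j hj => by rw [Polynomial.coeff_C, if_neg (by omega)]),
        Finset.sum_range_one, Polynomial.coeff_C_zero]
      exact (Real.rpow_le_rpow (norm_nonneg _) hs hq0.le).trans hs0q.le
    linarith
  · have h1 : Summable fun n => ‖(g i).coeff n‖ := by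
      refine summable_of_ne_finset_zero (s := range m) fun n hn => ?_
      rw [hgc i n (by simpa using hn), norm_zero]
    refine Summable.of_nonneg_of_le (fun _ => norm_nonneg _) (fun n => norm_sub_le _ _)
      (h1.add (hy2 i))
  · refine Sle_of_pointwise hp0.le (hy3 i) fun n => ?_
    have h1 : (g i).coeff n - y i n - (g i).coeff n = -y i n := by ring
    rw [h1, norm_neg]

end DC8965.BT
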