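import Mathlib

open MeasureTheory Set
open scoped ENNReal

namespace DC8965.BT

private lemma R1_base {θ s0 : ℝ} (h1 : θ < 1) (hs : 0 < s0) :
    ∫⁻ x in Icc (-s0) s0, (ENNReal.ofReal |x|) ^ (-θ) ≤
      ENNReal.ofReal (2 / (1 - θ) * s0 ^ (1 - θ)) := by
  have hθ : (0 : ℝ) < 1 - θ := by linarith
  have hpos : ∫⁻ x in Ioc 0 s0, (ENNReal.ofReal |x|) ^ (-θ) =
      ENNReal.ofReal (s0 ^ (1 - θ) / (1 - θ)) := by
    have e1 : ∫⁻ x in Ioc 0 s0, (ENNReal.ofReal |x|) ^ (-θ) =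
        ∫⁻ x in Ioc 0 s0, ENNReal.ofReal (x ^ (-θ)) := by
      refine setLIntegral_congr_fun measurableSet_Ioc fun x hx => ?_
      rw [abs_of_pos hx.1, ENNReal.ofReal_rpow_of_pos hx.1]
    have hint : IntervalIntegrable (fun x : ℝ => x ^ (-θ)) volume 0 s0 :=
      intervalIntegral.intervalIntegrable_rpow' (by linarith)
    have hint' : IntegrableOn (fun x : ℝ => x ^ (-θ)) (Ioc 0 s0) :=
      (intervalIntegrable_iff_integrableOn_Ioc_of_le hs.le).mp hint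
    rw [e1, ← ofReal_integral_eq_lintegral_ofReal hint']
    · congr 1
      rw [← intervalIntegral.integral_of_le hs.le, integral_rpow (Or.inl (by linarith))]
      have h3 : (-θ + 1) = 1 - θ := by ring
      rw [h3, Real.zero_rpow hθ.ne', sub_zero]
    · refine (ae_restrict_iff' measurableSet_Ioc).mpr (Filter.Eventually.of_forall fun x hx => ?_)
      exact Real.rpow_nonneg hx.1.le _
  have hneg : ∫⁻ x in Ico (-s0) 0, (ENNReal.ofReal |x|) ^ (-θ) =
      ∫⁻ x in Ioc 0 s0, (ENNReal.ofReal |x|) ^ (-θ) := by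
    have h2 := (Measure.measurePreserving_neg (volume : Measure ℝ)).setLIntegral_comp_preimage_emb
      (MeasurableEquiv.neg ℝ).measurableEmbedding
      (fun x => (ENNReal.ofReal |x|) ^ (-θ)) (Ioc 0 s0)
    rw [← h2]
    have h3 : (Neg.neg : ℝ → ℝ) ⁻¹' Ioc 0 s0 = Ico (-s0) 0 := by
      ext x
      simp only [mem_preimage, mem_Ioc, mem_Ico]
      constructor
      · rintro ⟨h, h'⟩
        constructor <;> linarith
      · rintro ⟨h, h'⟩
        constructor <;> linarith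
    rw [h3]
    simp only [abs_neg]
  have hsub : Icc (-s0) s0 ⊆ (Ico (-s0) 0 ∪ Ioc 0 s0) ∪ {0} := by
    intro x hx
    rcases lt_trichotomy x 0 with h | h | h
    · exact Or.inl (Or.inl ⟨hx.1, h⟩)
    · exact Or.inr h
    · exact Or.inl (Or.inr ⟨h, hx.2⟩)
  calc ∫⁻ x in Icc (-s0) s0, (ENNReal.ofReal |x|) ^ (-θ)
      ≤ ∫⁻ x in (Ico (-s0) 0 ∪ Ioc 0 s0) ∪ {0}, (ENNReal.ofReal |x|) ^ (-θ) :=
        lintegral_mono_set hsub
    _ ≤ (∫⁻ x in Ico (-s0) 0 ∪ Ioc 0 s0, (ENNReal.ofReal |x|) ^ (-θ)) +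
        ∫⁻ x in {(0 : ℝ)}, (ENNReal.ofReal |x|) ^ (-θ) := lintegral_union_le _ _ _
    _ = ∫⁻ x in Ico (-s0) 0 ∪ Ioc 0 s0, (ENNReal.ofReal |x|) ^ (-θ) := by
        rw [setLIntegral_measure_zero _ _ Real.volume_singleton, add_zero]
    _ ≤ (∫⁻ x in Ico (-s0) 0, (ENNReal.ofReal |x|) ^ (-θ)) +
        ∫⁻ x in Ioc 0 s0, (ENNReal.ofReal |x|) ^ (-θ) := lintegral_union_le _ _ _
    _ = ENNReal.ofReal (2 / (1 - θ) * s0 ^ (1 - θ)) := by
        rw [hneg, hpos, ← ENNReal.ofReal_add (by positivity) (by positivity)]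
        congr 1
        ring

/-- (R1a) the one-dimensional average -/
theorem R1a {θ s0 : ℝ} (h0 : 0 < θ) (h1 : θ < 1) (hs : 0 < s0) (a : ℝ) :
    ∫⁻ x in Icc (-s0) s0, (ENNReal.ofReal |a + x|) ^ (-θ) ≤
      ENNReal.ofReal (4 / (1 - θ) * s0 ^ (1 - θ)) := by
  have hθ : (0 : ℝ) < 1 - θ := by linarith
  have hmeas : Measurable fun x : ℝ => (ENNReal.ofReal |x|) ^ (-θ) :=
    ((measurable_id.abs).ennreal_ofReal).pow_const _
  set ψ : ℝ → ℝ≥0∞ := (Icc (-s0) s0).indicator (fun x => (ENNReal.ofReal |x|) ^ (-θ)) with hψ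
  have hψm : Measurable ψ := hmeas.indicator measurableSet_Icc
  have hpt : ∀ x : ℝ, (ENNReal.ofReal |a + x|) ^ (-θ) ≤
      ψ (a + x) + (ENNReal.ofReal s0) ^ (-θ) := by
    intro x
    by_cases hx : a + x ∈ Icc (-s0) s0
    · rw [hψ, indicator_of_mem hx]
      exact le_self_add
    · rw [hψ, indicator_of_notMem hx, zero_add]
      have h2 : s0 ≤ |a + x| := by
        by_contra h
        rw [not_le, abs_lt] at h
        exact hx ⟨h.1.le, h.2.le⟩
      rw [ENNReal.rpow_neg, ENNReal.rpow_neg, ENNReal.inv_le_inv]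
      exact ENNReal.rpow_le_rpow (ENNReal.ofReal_le_ofReal h2) h0.le
  have hc : (ENNReal.ofReal s0) ^ (-θ) = ENNReal.ofReal (s0 ^ (-θ)) :=
    ENNReal.ofReal_rpow_of_pos hs
  calc ∫⁻ x in Icc (-s0) s0, (ENNReal.ofReal |a + x|) ^ (-θ)
      ≤ ∫⁻ x in Icc (-s0) s0, (ψ (a + x) + (ENNReal.ofReal s0) ^ (-θ)) :=
        lintegral_mono fun x => hpt x
    _ = (∫⁻ x in Icc (-s0) s0, ψ (a + x)) + (ENNReal.ofReal s0) ^ (-θ) * volume (Icc (-s0) s0) := by
        rw [lintegral_add_right _ measurable_const, setLIntegral_const]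
    _ ≤ (∫⁻ x, ψ (a + x)) + (ENNReal.ofReal s0) ^ (-θ) * volume (Icc (-s0) s0) := by
        gcongr
        exact Measure.restrict_le_self
    _ = (∫⁻ x, ψ x) + (ENNReal.ofReal s0) ^ (-θ) * volume (Icc (-s0) s0) := by
        rw [lintegral_add_left_eq_self ψ a]
    _ = (∫⁻ x in Icc (-s0) s0, (ENNReal.ofReal |x|) ^ (-θ)) +
        (ENNReal.ofReal s0) ^ (-θ) * volume (Icc (-s0) s0) := by
        rw [hψ, lintegral_indicator measurableSet_Icc]
    _ ≤ ENNReal.ofReal (2 / (1 - θ) * s0 ^ (1 - θ)) +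
        ENNReal.ofReal (s0 ^ (-θ)) * ENNReal.ofReal (2 * s0) := by
        rw [hc, Real.volume_Icc, show s0 - -s0 = 2 * s0 by ring]
        gcongr
        exact R1_base h1 hs
    _ = ENNReal.ofReal (2 / (1 - θ) * s0 ^ (1 - θ) + s0 ^ (-θ) * (2 * s0)) := by
        rw [← ENNReal.ofReal_mul (by positivity), ← ENNReal.ofReal_add (by positivity) (by positivity)]
    _ ≤ ENNReal.ofReal (4 / (1 - θ) * s0 ^ (1 - θ)) := by
        apply ENNReal.ofReal_le_ofReal
        have h2 : s0 ^ (-θ) * (2 * s0) = 2 * s0 ^ (1 - θ) := by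
          have h3 : s0 ^ (1 - θ) = s0 ^ (-θ) * s0 := by
            rw [show (1 - θ) = -θ + 1 by ring, Real.rpow_add hs, Real.rpow_one]
          rw [h3]
          ring
        rw [h2, ← add_mul]
        apply mul_le_mul_of_nonneg_right _ (by positivity)
        have h4 : (2 : ℝ) ≤ 2 / (1 - θ) := by
          rw [le_div_iff₀ hθ]
          linarith
        have h5 : 4 / (1 - θ) = 2 / (1 - θ) + 2 / (1 - θ) := by ring
        linarith

/-- the normalised random parameter -/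
noncomputable def RSq (s0 : ℝ) : Measure (ℝ × ℝ) :=
  ((volume : Measure ℝ).restrict (Icc (-s0) s0)).prod ((volume : Measure ℝ).restrict (Icc (-s0) s0))

/-- (R1b) the two-dimensional average -/
theorem R1b {r s0 : ℝ} (h0 : 0 < r) (h1 : r < 2) (hs : 0 < s0) (w : ℂ) :
    ∫⁻ v, (ENNReal.ofReal ‖w + (v.1 + v.2 * Complex.I)‖) ^ (-r) ∂(RSq s0) ≤
      ENNReal.ofReal ((4 / (1 - r / 2)) ^ 2 * s0 ^ (2 - r)) := by
  have hr : (0 : ℝ) < 1 - r / 2 := by linarith
  have hr' : (0 : ℝ) < r / 2 := by linarith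
  have hpt : ∀ v : ℝ × ℝ, (ENNReal.ofReal ‖w + (v.1 + v.2 * Complex.I)‖) ^ (-r) ≤
      (ENNReal.ofReal |w.re + v.1|) ^ (-(r / 2)) * (ENNReal.ofReal |w.im + v.2|) ^ (-(r / 2)) := by
    intro v
    set u : ℂ := w + (v.1 + v.2 * Complex.I) with hu
    have e1 : |w.re + v.1| ≤ ‖u‖ := by
      have := Complex.abs_re_le_norm u
      simpa [hu] using this
    have e2 : |w.im + v.2| ≤ ‖u‖ := by
      have := Complex.abs_im_le_norm u
      simpa [hu] using this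
    have e3 : (ENNReal.ofReal ‖u‖) ^ (-r) =
        (ENNReal.ofReal ‖u‖) ^ (-(r / 2)) * (ENNReal.ofReal ‖u‖) ^ (-(r / 2)) := by
      rw [show -r = -(r / 2) * 2 by ring, ENNReal.rpow_mul, ENNReal.rpow_two, sq]
    have e4 : ∀ x : ℝ, x ≤ ‖u‖ → (ENNReal.ofReal ‖u‖) ^ (-(r / 2)) ≤
        (ENNReal.ofReal x) ^ (-(r / 2)) := by
      intro x hx
      rw [ENNReal.rpow_neg, ENNReal.rpow_neg, ENNReal.inv_le_inv]
      exact ENNReal.rpow_le_rpow (ENNReal.ofReal_le_ofReal hx) hr'.le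
    rw [e3]
    exact mul_le_mul' (e4 _ e1) (e4 _ e2)
  have hm : ∀ a : ℝ, AEMeasurable (fun x : ℝ => (ENNReal.ofReal |a + x|) ^ (-(r / 2)))
      ((volume : Measure ℝ).restrict (Icc (-s0) s0)) := fun a =>
    ((((measurable_const.add measurable_id).abs).ennreal_ofReal).pow_const _).aemeasurable
  calc ∫⁻ v, (ENNReal.ofReal ‖w + (v.1 + v.2 * Complex.I)‖) ^ (-r) ∂(RSq s0)
      ≤ ∫⁻ v, (ENNReal.ofReal |w.re + v.1|) ^ (-(r / 2)) *
          (ENNReal.ofReal |w.im + v.2|) ^ (-(r / 2)) ∂(RSq s0) := lintegral_mono hpt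
    _ = (∫⁻ x in Icc (-s0) s0, (ENNReal.ofReal |w.re + x|) ^ (-(r / 2))) *
        ∫⁻ x in Icc (-s0) s0, (ENNReal.ofReal |w.im + x|) ^ (-(r / 2)) := by
        unfold RSq
        exact lintegral_prod_mul (hm w.re) (hm w.im)
    _ ≤ ENNReal.ofReal (4 / (1 - r / 2) * s0 ^ (1 - r / 2)) *
        ENNReal.ofReal (4 / (1 - r / 2) * s0 ^ (1 - r / 2)) :=
        mul_le_mul' (R1a hr' (by linarith) hs _) (R1a hr' (by linarith) hs _)
    _ = ENNReal.ofReal ((4 / (1 - r / 2)) ^ 2 * s0 ^ (2 - r)) := by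
        rw [← ENNReal.ofReal_mul (by positivity)]
        congr 1
        have h3 : s0 ^ (2 - r) = s0 ^ (1 - r / 2) * s0 ^ (1 - r / 2) := by
          rw [← Real.rpow_add hs]
          congr 1
          ring
        rw [h3]
        ring

end DC8965.BT
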