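import Pool.Agent.Lib.MP_dc8965_an.RS.R1

open MeasureTheory Set Polynomial
open scoped ENNReal

namespace DC8965.BT

/-- the point of the plane with coordinates `v` -/
noncomputable def cp (v : ℝ × ℝ) : ℂ := v.1 + v.2 * Complex.I

theorem cp_continuous : Continuous cp := by
  unfold cp
  fun_prop

theorem cp_injective : Function.Injective cp := by
  intro v w h
  have h1 := congrArg Complex.re h
  have h2 := congrArg Complex.im h
  simp [cp] at h1 h2
  exact Prod.ext h1 h2

/-- (R2a) the parameters for which `V + s z^m` has a zero on the circle form a null set -/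
theorem R2a (V : ℂ[X]) (m : ℕ) :
    (volume : Measure (ℝ × ℝ)) {v | ∃ z : ℂ, ‖z‖ = 1 ∧ (V + C (cp v) * X ^ m).eval z = 0} = 0 := by
  set γ : ℝ → ℂ := fun t => -V.eval (Complex.exp (-((t : ℂ) * Complex.I))) *
    Complex.exp ((m : ℂ) * ((t : ℂ) * Complex.I)) with hγ
  have hγs : ContDiff ℝ 1 γ := by
    have h1 : ContDiff ℝ 1 (fun t : ℝ => (t : ℂ)) := Complex.ofRealCLM.contDiff
    have h2 : ContDiff ℝ 1 (fun t : ℝ => Complex.exp (-((t : ℂ) * Complex.I))) :=
      (h1.mul contDiff_const).neg.cexp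
    have h3 : ContDiff ℝ 1 (fun t : ℝ => Complex.exp ((m : ℂ) * ((t : ℂ) * Complex.I))) :=
      (contDiff_const.mul (h1.mul contDiff_const)).cexp
    have h4 : ContDiff ℝ 1 (fun t : ℝ => V.eval (Complex.exp (-((t : ℂ) * Complex.I)))) := by
      have h5 : ∀ t : ℝ, V.eval (Complex.exp (-((t : ℂ) * Complex.I))) =
          ∑ k ∈ V.support, V.coeff k * (Complex.exp (-((t : ℂ) * Complex.I))) ^ k := by
        intro t
        rw [Polynomial.eval_eq_sum, Polynomial.sum_def]
      simp only [h5]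
      exact ContDiff.sum fun k _ => contDiff_const.mul (h2.pow k)
    exact h4.neg.mul h3
  have hf : ContDiff ℝ 1 (fun t : ℝ => ((γ t).re, (γ t).im)) :=
    (Complex.reCLM.contDiff.comp hγs).prodMk (Complex.imCLM.contDiff.comp hγs)
  have hdim := hf.dimH_range_le
  have hnull : (volume : Measure (ℝ × ℝ)) (range fun t : ℝ => ((γ t).re, (γ t).im)) = 0 := by
    rw [← hausdorffMeasure_prod_real]
    have h2 : ((2 : NNReal) : ℝ) = 2 := rfl
    rw [← h2]
    apply hausdorffMeasure_of_dimH_lt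
    refine hdim.trans_lt ?_
    simp
  refine measure_mono_null ?_ hnull
  rintro v ⟨z, hz, hv⟩
  refine ⟨-z.arg, ?_⟩
  have hz' : Complex.exp (-(((-z.arg : ℝ) : ℂ) * Complex.I)) = z := by
    have h6 := Complex.norm_mul_exp_arg_mul_I z
    rw [hz, Complex.ofReal_one, one_mul] at h6
    rw [Complex.ofReal_neg, neg_mul, neg_neg]
    exact h6
  have hz0 : z ≠ 0 := by
    intro h
    rw [h, norm_zero] at hz
    exact zero_ne_one hz
  have h1 : γ (-z.arg) = cp v := by
    have h2 : Complex.exp ((m : ℂ) * (((-z.arg : ℝ) : ℂ) * Complex.I)) = (z ^ m)⁻¹ := by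
      have h5 : z⁻¹ = Complex.exp (((-z.arg : ℝ) : ℂ) * Complex.I) := by
        conv_lhs => rw [← hz']
        rw [← Complex.exp_neg, neg_neg]
      rw [← inv_pow, h5, ← Complex.exp_nat_mul]
    simp only [hγ, hz', h2]
    have h3 : V.eval z + cp v * z ^ m = 0 := by
      simpa using hv
    have h4 : z ^ m ≠ 0 := pow_ne_zero _ hz0
    field_simp
    linear_combination (-1 : ℂ) * h3
  simp only [h1]
  unfold cp
  simp

/-- (R2b) the parameters for which `V + s z^m` has a multiple root form a finite set -/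
theorem R2b (V : ℂ[X]) {m : ℕ} (hm : 0 < m) (hV : V.eval 0 ≠ 0) :
    {v : ℝ × ℝ | ¬ (V + C (cp v) * X ^ m).roots.Nodup}.Finite := by
  classical
  set W : ℂ[X] := X * V.derivative - C (m : ℂ) * V with hW
  have hWne : W ≠ 0 := by
    intro h
    have h1 : W.eval 0 = 0 := by rw [h, eval_zero]
    rw [hW] at h1
    simp only [eval_sub, eval_mul, eval_X, zero_mul, eval_C, zero_sub, neg_eq_zero, mul_eq_zero,
      Nat.cast_eq_zero] at h1
    rcases h1 with h1 | h1
    · omega
    · exact hV h1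
  have hfin : (cp ⁻¹' ((fun z => -V.eval z / z ^ m) '' (W.roots.toFinset : Set ℂ))).Finite :=
    (W.roots.toFinset.finite_toSet.image _).preimage cp_injective.injOn
  refine hfin.subset fun v hv => ?_
  have hne : V + C (cp v) * X ^ m ≠ 0 := by
    intro h
    have h1 : (V + C (cp v) * X ^ m).eval 0 = 0 := by rw [h, eval_zero]
    rw [eval_add, eval_mul, eval_pow, eval_X, zero_pow hm.ne', mul_zero, add_zero] at h1
    exact hV h1
  rw [mem_ofPred_eq, Multiset.nodup_iff_count_le_one] at hv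
  push Not at hv
  obtain ⟨z, hz⟩ := hv
  rw [Polynomial.count_roots, Polynomial.one_lt_rootMultiplicity_iff_isRoot hne] at hz
  obtain ⟨h1, h2⟩ := hz
  have e1 : V.eval z + cp v * z ^ m = 0 := by
    have := h1.eq_zero
    simpa using this
  have e2 : V.derivative.eval z + cp v * (m * z ^ (m - 1)) = 0 := by
    have := h2.eq_zero
    rw [Polynomial.derivative_add, Polynomial.derivative_C_mul, Polynomial.derivative_X_pow] at this
    simpa using this
  have hz0 : z ≠ 0 := by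
    intro h
    rw [h, zero_pow hm.ne', mul_zero, add_zero] at e1
    exact hV e1
  refine ⟨z, ?_, ?_⟩
  · rw [Finset.mem_coe, Multiset.mem_toFinset, Polynomial.mem_roots hWne, Polynomial.IsRoot.def, hW]
    simp only [eval_sub, eval_mul, eval_X, eval_C]
    have h3 : z * z ^ (m - 1) = z ^ m := by
      rw [← pow_succ']
      congr 1
      omega
    linear_combination z * e2 - (m : ℂ) * e1 - cp v * m * h3
  · have h4 : z ^ m ≠ 0 := pow_ne_zero _ hz0
    simp only
    rw [div_eq_iff h4]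
    linear_combination (-1 : ℂ) * e1

/-- (R2) a random far monomial: some `s` with `|s| ≤ 2 s0` makes the `L^r` means of `b_i / U` on the
circle small, `U = V + s z^m` having simple roots, none of them on the circle -/
theorem R2 {r : ℝ} (h0 : 0 < r) (h1 : r < 2) {k : ℕ} (V : ℂ[X]) (b : Fin k → ℂ[X]) {m : ℕ}
    (hm : 0 < m) (hV : V.eval 0 ≠ 0) {s0 : ℝ} (hs : 0 < s0) :
    ∃ s : ℂ, ‖s‖ ≤ 2 * s0 ∧ (V + C s * X ^ m).roots.Nodup ∧
      (∀ z : ℂ, ‖z‖ = 1 → (V + C s * X ^ m).eval z ≠ 0) ∧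
      ∑ i, ∫ t in (0 : ℝ)..(2 * Real.pi), ‖(b i).eval (Complex.exp ((t : ℂ) * Complex.I)) /
        (V + C s * X ^ m).eval (Complex.exp (-((t : ℂ) * Complex.I)))‖ ^ r ≤
      (4 / (1 - r / 2)) ^ 2 * s0 ^ (-r) *
        ∑ i, ∫ t in (0 : ℝ)..(2 * Real.pi), ‖(b i).eval (Complex.exp ((t : ℂ) * Complex.I))‖ ^ r := by
  have hr : (0 : ℝ) < 1 - r / 2 := by linarith
  have hpi : (0 : ℝ) < 2 * Real.pi := by positivity
  set K : ℝ := (4 / (1 - r / 2)) ^ 2 with hK
  set β : Fin k → ℝ → ℂ := fun i t => (b i).eval (Complex.exp ((t : ℂ) * Complex.I)) with hβ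
  set υ : ℝ × ℝ → ℝ → ℂ := fun v t =>
    (V + C (cp v) * X ^ m).eval (Complex.exp (-((t : ℂ) * Complex.I))) with hυ
  have hβc : ∀ i, Continuous (β i) := fun i => by
    simp only [hβ]
    fun_prop
  have hυe : ∀ v t, υ v t = V.eval (Complex.exp (-((t : ℂ) * Complex.I))) +
      cp v * Complex.exp (-((t : ℂ) * Complex.I)) ^ m := fun v t => by
    simp only [hυ]
    simp
  have hυc2 : Continuous fun p : (ℝ × ℝ) × ℝ => υ p.1 p.2 := by
    simp only [hυe]
    have := cp_continuous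
    fun_prop
  have hυc : ∀ v, Continuous (υ v) := fun v => by
    have := hυc2.comp (Continuous.prodMk_right v)
    exact this
  set f : ℝ × ℝ → ℝ≥0∞ := fun v => ∑ i, ∫⁻ t in Ioc 0 (2 * Real.pi),
    ENNReal.ofReal (‖β i t‖ ^ r) * (ENNReal.ofReal ‖υ v t‖) ^ (-r) with hf
  have hmeas : ∀ i, Measurable (Function.uncurry fun (v : ℝ × ℝ) (t : ℝ) =>
      ENNReal.ofReal (‖β i t‖ ^ r) * (ENNReal.ofReal ‖υ v t‖) ^ (-r)) := by
    intro i
    refine Measurable.mul ?_ ?_
    · exact (((hβc i).measurable.norm.pow_const r).ennreal_ofReal).comp measurable_snd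
    · exact (hυc2.measurable.norm.ennreal_ofReal).pow_const _
  have hfm : Measurable f := by
    refine Finset.measurable_sum _ fun i _ => ?_
    exact (hmeas i).lintegral_prod_right'
  have hvol : RSq s0 univ = ENNReal.ofReal ((2 * s0) ^ 2) := by
    unfold RSq
    rw [← univ_prod_univ, Measure.prod_prod, Measure.restrict_apply_univ, Real.volume_Icc,
      show s0 - -s0 = 2 * s0 by ring, ← ENNReal.ofReal_mul (by positivity), sq]
  have : IsFiniteMeasure (RSq s0) := ⟨by rw [hvol]; exact ENNReal.ofReal_lt_top⟩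
  have hne : RSq s0 ≠ 0 := by
    intro h
    rw [h] at hvol
    simp only [Measure.coe_zero, Pi.zero_apply] at hvol
    have := ENNReal.ofReal_pos.mpr (show 0 < (2 * s0) ^ 2 by positivity)
    rw [← hvol] at this
    exact lt_irrefl _ this
  -- the mean
  have hint : ∫⁻ v, f v ∂(RSq s0) ≤ ∑ i, (∫⁻ t in Ioc 0 (2 * Real.pi),
      ENNReal.ofReal (‖β i t‖ ^ r)) * ENNReal.ofReal (K * s0 ^ (2 - r)) := by
    have e0 : ∫⁻ v, f v ∂(RSq s0) = ∑ i, ∫⁻ v, (∫⁻ t in Ioc 0 (2 * Real.pi),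
        ENNReal.ofReal (‖β i t‖ ^ r) * (ENNReal.ofReal ‖υ v t‖) ^ (-r)) ∂(RSq s0) :=
      lintegral_finsetSum _ fun i _ => (hmeas i).lintegral_prod_right'
    rw [e0]
    refine Finset.sum_le_sum fun i _ => ?_
    rw [lintegral_lintegral_swap (hmeas i).aemeasurable]
    rw [← lintegral_mul_const' _ _ ENNReal.ofReal_ne_top]
    refine lintegral_mono fun t => ?_
    have hmt : Measurable fun v : ℝ × ℝ => (ENNReal.ofReal ‖υ v t‖) ^ (-r) := by
      have := hυc2.comp (Continuous.prodMk_left t)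
      exact (this.measurable.norm.ennreal_ofReal).pow_const _
    rw [lintegral_const_mul _ hmt]
    refine mul_le_mul' le_rfl ?_
    set z : ℂ := Complex.exp (-((t : ℂ) * Complex.I)) with hz
    have hzn : ‖z‖ = 1 := by
      rw [hz, Complex.norm_exp]
      simp
    have hz0 : z ≠ 0 := Complex.exp_ne_zero _
    have hh : ∀ v, ‖υ v t‖ = ‖V.eval z * (z ^ m)⁻¹ + (v.1 + v.2 * Complex.I)‖ := by
      intro v
      have h2 : υ v t = (V.eval z * (z ^ m)⁻¹ + (v.1 + v.2 * Complex.I)) * z ^ m := by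
        rw [hυe, ← hz, add_mul, inv_mul_cancel_right₀ (pow_ne_zero _ hz0)]
        rfl
      rw [h2, norm_mul, norm_pow, hzn, one_pow, mul_one]
    simp only [hh]
    exact R1b h0 h1 hs _
  -- null set
  set N : Set (ℝ × ℝ) := {v | ∃ z : ℂ, ‖z‖ = 1 ∧ (V + C (cp v) * X ^ m).eval z = 0} ∪
    {v : ℝ × ℝ | ¬ (V + C (cp v) * X ^ m).roots.Nodup} ∪ (Icc (-s0) s0 ×ˢ Icc (-s0) s0)ᶜ with hN
  have hRr : RSq s0 = (volume : Measure (ℝ × ℝ)).restrict (Icc (-s0) s0 ×ˢ Icc (-s0) s0) := by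
    unfold RSq
    rw [Measure.prod_restrict]
    rfl
  have hNnull : RSq s0 N = 0 := by
    rw [hN, measure_union_null_iff, measure_union_null_iff]
    have hac : ∀ A : Set (ℝ × ℝ), (volume : Measure (ℝ × ℝ)) A = 0 → RSq s0 A = 0 := by
      intro A hA
      rw [hRr]
      exact le_antisymm ((Measure.restrict_apply_le _ _).trans hA.le) zero_le
    refine ⟨⟨hac _ (R2a V m), hac _ ?_⟩, ?_⟩
    · exact (R2b V hm hV).measure_zero _
    · rw [hRr, Measure.restrict_apply (measurableSet_Icc.prod measurableSet_Icc).compl,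
        compl_inter_self, measure_empty]
  obtain ⟨v, hvN, hv⟩ := exists_notMem_null_le_laverage hne hfm.aemeasurable hNnull
  rw [hN, mem_union, mem_union, not_or, not_or, notMem_compl_iff] at hvN
  obtain ⟨⟨hv1, hv2⟩, hv3⟩ := hvN
  have hU : ∀ z : ℂ, ‖z‖ = 1 → (V + C (cp v) * X ^ m).eval z ≠ 0 := fun z hz h =>
    hv1 ⟨z, hz, h⟩
  have hnd : (V + C (cp v) * X ^ m).roots.Nodup := by
    by_contra h
    exact hv2 h
  refine ⟨cp v, ?_, hnd, hU, ?_⟩
  · obtain ⟨ha, hb⟩ := hv3
    have ha' : |v.1| ≤ s0 := abs_le.mpr ha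
    have hb' : |v.2| ≤ s0 := abs_le.mpr hb
    calc ‖cp v‖ ≤ ‖(v.1 : ℂ)‖ + ‖(v.2 : ℂ) * Complex.I‖ := norm_add_le _ _
      _ = |v.1| + |v.2| := by
          rw [norm_mul, Complex.norm_I, mul_one, Complex.norm_real, Complex.norm_real,
            Real.norm_eq_abs, Real.norm_eq_abs]
      _ ≤ 2 * s0 := by linarith
  · -- real integrals
    have hυ0 : ∀ t, υ v t ≠ 0 := fun t => by
      refine hU _ ?_
      rw [Complex.norm_exp]
      simp
    have hIoc : ∀ (g : ℝ → ℝ), Continuous g → (∀ t, 0 ≤ g t) →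
        ENNReal.ofReal (∫ t in (0 : ℝ)..(2 * Real.pi), g t) =
          ∫⁻ t in Ioc 0 (2 * Real.pi), ENNReal.ofReal (g t) := by
      intro g hg hg0
      rw [intervalIntegral.integral_of_le hpi.le]
      refine ofReal_integral_eq_lintegral_ofReal ?_ (Filter.Eventually.of_forall hg0)
      exact (intervalIntegrable_iff_integrableOn_Ioc_of_le hpi.le).mp (hg.intervalIntegrable _ _)
    have hc1 : ∀ i, Continuous fun t => ‖β i t / υ v t‖ ^ r := fun i =>
      (((hβc i).div (hυc v) hυ0).norm).rpow_const fun _ => Or.inr h0.le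
    have hc2 : ∀ i, Continuous fun t => ‖β i t‖ ^ r := fun i =>
      ((hβc i).norm).rpow_const fun _ => Or.inr h0.le
    have hn1 : ∀ i, 0 ≤ ∫ t in (0 : ℝ)..(2 * Real.pi), ‖β i t / υ v t‖ ^ r := fun i =>
      intervalIntegral.integral_nonneg hpi.le fun t _ => by positivity
    have hn2 : ∀ i, 0 ≤ ∫ t in (0 : ℝ)..(2 * Real.pi), ‖β i t‖ ^ r := fun i =>
      intervalIntegral.integral_nonneg hpi.le fun t _ => by positivity
    have hL : ENNReal.ofReal (∑ i, ∫ t in (0 : ℝ)..(2 * Real.pi), ‖β i t / υ v t‖ ^ r) = f v := by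
      rw [ENNReal.ofReal_sum_of_nonneg fun i _ => hn1 i, hf]
      refine Finset.sum_congr rfl fun i _ => ?_
      rw [hIoc _ (hc1 i) fun t => by positivity]
      refine lintegral_congr fun t => ?_
      have h2 : 0 < ‖υ v t‖ := norm_pos_iff.mpr (hυ0 t)
      rw [ENNReal.ofReal_rpow_of_pos h2, ← ENNReal.ofReal_mul (by positivity), norm_div,
        Real.div_rpow (norm_nonneg _) (norm_nonneg _), Real.rpow_neg h2.le, div_eq_mul_inv]
    have hR : ∑ i, (∫⁻ t in Ioc 0 (2 * Real.pi), ENNReal.ofReal (‖β i t‖ ^ r)) *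
        ENNReal.ofReal (K * s0 ^ (2 - r)) =
        ENNReal.ofReal ((∑ i, ∫ t in (0 : ℝ)..(2 * Real.pi), ‖β i t‖ ^ r) *
          (K * s0 ^ (2 - r))) := by
      rw [← Finset.sum_mul, ENNReal.ofReal_mul (Finset.sum_nonneg fun i _ => hn2 i),
        ENNReal.ofReal_sum_of_nonneg fun i _ => hn2 i]
      congr 1
      refine Finset.sum_congr rfl fun i _ => ?_
      rw [hIoc _ (hc2 i) fun t => by positivity]
    have hfin : ENNReal.ofReal (∑ i, ∫ t in (0 : ℝ)..(2 * Real.pi), ‖β i t / υ v t‖ ^ r) ≤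
        ENNReal.ofReal (K * s0 ^ (-r) * ∑ i, ∫ t in (0 : ℝ)..(2 * Real.pi), ‖β i t‖ ^ r) := by
      rw [hL]
      refine hv.trans ?_
      rw [laverage_eq, hvol]
      refine ENNReal.div_le_of_le_mul ?_
      refine hint.trans ?_
      rw [hR, ← ENNReal.ofReal_mul (by
        refine mul_nonneg (by positivity) (Finset.sum_nonneg fun i _ => hn2 i))]
      apply ENNReal.ofReal_le_ofReal
      have h3 : s0 ^ (2 - r) = s0 ^ (-r) * s0 ^ 2 := by
        rw [← Real.rpow_natCast, ← Real.rpow_add hs]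
        congr 1
        push_cast
        ring
      rw [h3]
      have h4 : 0 ≤ K * s0 ^ (-r) * s0 ^ 2 *
          ∑ i, ∫ t in (0 : ℝ)..(2 * Real.pi), ‖β i t‖ ^ r :=
        mul_nonneg (by positivity) (Finset.sum_nonneg fun i _ => hn2 i)
      nlinarith
    have h5 : 0 ≤ K * s0 ^ (-r) * ∑ i, ∫ t in (0 : ℝ)..(2 * Real.pi), ‖β i t‖ ^ r :=
      mul_nonneg (by positivity) (Finset.sum_nonneg fun i _ => hn2 i)
    exact (ENNReal.ofReal_le_ofReal_iff h5).mp hfin

end DC8965.BT
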